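import Pool.Agent.Lib.MP_211349_ag.Curve

/-!
# Models over a valuation ring, residually nonrational valuation rings
-/

open CategoryTheory Limits AlgebraicGeometry Polynomial

universe u

noncomputable section

namespace Pool.Agent.Lib.MP_211349_ag

section schemes

variable {K : Type u} [Field K] (O : ValuationSubring K)

/-- The morphism `Spec K → Spec O`. -/
def genPt : Spec (.of K) ⟶ Spec (.of O) := Spec.map (CommRingCat.ofHom (algebraMap O K))

/-- The morphism `Spec (O / I) → Spec O`. -/
def modPt (I : Ideal O) : Spec (.of (O ⧸ I)) ⟶ Spec (.of O) :=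
  Spec.map (CommRingCat.ofHom (algebraMap O (O ⧸ I)))

/-- The morphism `Spec k → Spec O`, where `k` is the residue field of `O`. -/
def resPt : Spec (.of (IsLocalRing.ResidueField O)) ⟶ Spec (.of O) :=
  Spec.map (CommRingCat.ofHom (algebraMap O (IsLocalRing.ResidueField O)))

/-- The `O`-scheme `f : X → Spec O` has generic fibre `g : C → Spec K`. -/
def HasGenericFibre {X C : Scheme.{u}} (f : X ⟶ Spec (.of O)) (g : C ⟶ Spec (.of K)) : Prop :=
  ∃ i : C ⟶ X, IsPullback i g f (genPt O)

/-- The `O`-schemes `X` and `Y` are isomorphic modulo the ideal `I`. -/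
def IsoMod (I : Ideal O) {X Y : Scheme.{u}} (f : X ⟶ Spec (.of O)) (g : Y ⟶ Spec (.of O)) : Prop :=
  ∃ e : pullback f (modPt O I) ≅ pullback g (modPt O I),
    e.hom ≫ pullback.snd g (modPt O I) = pullback.snd f (modPt O I)

/-- The special fibre of the `O`-scheme `f : X → Spec O`. -/
abbrev specialFibre {X : Scheme.{u}} (f : X ⟶ Spec (.of O)) : Scheme.{u} := pullback f (resPt O)

/-- The ring homomorphism from `R` to the function field of an integral `R`-scheme. -/
def toFunctionField {R : Type u} [CommRing R] {C : Scheme.{u}} [IsIntegral C]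
    (g : C ⟶ Spec (.of R)) : R →+* C.functionField :=
  (C.presheaf.germ ⊤ (genericPoint C) trivial).hom.comp
    (g.appTop.hom.comp (Scheme.ΓSpecIso (.of R)).inv.hom)

/-- The valuation ring `O` has rank one. -/
def RankOne : Prop :=
  (∃ a : O, a ≠ 0 ∧ ¬ IsUnit a) ∧
    ∀ a b : O, ¬ IsUnit a → b ≠ 0 → ∃ n : ℕ, b ∣ a ^ n

end schemes

section valuations

variable {K L : Type u} [Field K] [Field L] [Algebra K L] (O : ValuationSubring K)

/-- The valuation ring `v` of the extension `L` of `K` lies over `O`. -/
def Over (v : ValuationSubring L) : Prop := v.comap (algebraMap K L) = O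

/-- The residue field of the valuation ring `v`, lying over `O`, contains nonconstant functions
`X`, `Y` with `Y² = X³ - X`. -/
def Nonrational (v : ValuationSubring L) : Prop :=
  ∃ X Y : L, X ∈ v ∧ Y ∈ v ∧ Y ^ 2 - X ^ 3 + X ∈ v.nonunits ∧
    ∀ a ∈ O, X - algebraMap K L a ∉ v.nonunits

end valuations

end Pool.Agent.Lib.MP_211349_ag
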