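import Pool.Agent.Lib.MP_211349_ag.Stmt
import Pool.Agent.Lib.MP_211349_ag.Mg.G006
import Pool.Agent.Lib.MP_211349_ag.Mg.G009
import Pool.Agent.Lib.MP_211349_ag.Mg.G002
import Pool.Agent.Lib.MP_211349_ag.Mg.G001
import Pool.Agent.Lib.MP_211349_ag.Mg.G010
import Pool.Agent.Lib.MP_211349_ag.Mg.G004

/-!
# Final assembly
-/

open CategoryTheory Limits AlgebraicGeometry Polynomial

universe u

noncomputable section

namespace Pool.Agent.Lib.MP_211349_ag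

/-- If no finite étale covering of `C₂` has a smooth model with integral special fibre then
the models of its coverings are not isomorphic modulo `ϖ` to disjoint unions of such models. -/
theorem not_isoMod_of_bad {K : Type u} [Field K] {O : ValuationSubring K} (hO : RankOne O)
    {C₂ : Scheme.{u}} (g₂ : C₂ ⟶ Spec (.of K)) (hg₂ : Smooth g₂)
    (bad : ∀ (C' : Scheme.{u}) (π : C' ⟶ C₂), Covering π →
      ∀ (X : Scheme.{u}) (f : X ⟶ Spec (.of O)), ¬ GoodModel O f (π ≫ g₂))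
    {ι₁ ι₂ : Type u} {D₁ : ι₁ → Scheme.{u}} {D₂ : ι₂ → Scheme.{u}} (d₁ : ∀ i, D₁ i ⟶ Spec (.of K))
    (π₂ : ∀ j, D₂ j ⟶ C₂) {X₁ : ι₁ → Scheme.{u}} {X₂ : ι₂ → Scheme.{u}}
    (f₁ : ∀ i, X₁ i ⟶ Spec (.of O)) (f₂ : ∀ j, X₂ j ⟶ Spec (.of O)) (hι : Nonempty ι₁)
    (hπ₂ : ∀ j, Covering (π₂ j)) (hf₁ : ∀ i, GoodModel O (f₁ i) (d₁ i))
    (hf₂ : ∀ j, FlatModel O (f₂ j) (π₂ j ≫ g₂)) (ϖ : O) (h0 : ϖ ≠ 0) (hu : ¬ IsUnit ϖ) :
    ¬ IsoMod O (Ideal.span {ϖ}) (Sigma.desc f₁) (Sigma.desc f₂) := by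
  intro hiso
  have hI : Ideal.span {ϖ} ≠ ⊤ := by
    rwa [Ne, Ideal.span_singleton_eq_top]
  have hI0 : Ideal.span {ϖ} ≠ ⊥ := by
    rwa [Ne, Ideal.span_singleton_eq_bot]
  obtain ⟨i⟩ := hι
  obtain ⟨j, hj⟩ := isoMod_of_sigma hO _ hI hI0 f₁ f₂
    (fun i => by
      have := (hf₁ i).special
      infer_instance)
    (fun j => (hf₂ j).special) hiso i
  have := (hf₁ i).smooth
  have := (hf₂ j).flat
  have := (hf₂ j).locallyOfFinitePresentation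
  have := (hπ₂ j).etale
  obtain ⟨hs, hk⟩ := smooth_of_isoMod' O hO (f₁ i) (hf₁ i).special (f₂ j) (π₂ j ≫ g₂)
    (hf₂ j).generic _ hI hj
  exact bad _ (π₂ j) (hπ₂ j) _ (f₂ j) ⟨(hf₂ j).isProper, hs, (hf₂ j).generic, hk⟩

/-- The final theorem. -/
theorem final {K : Type u} [NontriviallyNormedField K] [IsUltrametricDist K] [CompleteSpace K]
    [IsAlgClosed K] (p : ℕ) [Fact p.Prime] (hp : p ≠ 2) [CharP K p] (c₁ c₂ : K)
    (hc₁ : ∃ n, 0 < n ∧ c₁ ^ p ^ n = c₁) (hc₁0 : c₁ ≠ 0) (hc₁1 : c₁ ≠ 1) (hc₂0 : c₂ ≠ 0)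
    (hc₂ : ‖c₂‖ < 1) :
    SmoothProper (toSpec K c₁) ∧ SmoothProper (toSpec K c₂) ∧
    (∀ (C' : Scheme.{u}) (π : C' ⟶ curve K c₁), Covering π →
      ∃ (X : Scheme.{u}) (f : X ⟶ Spec (.of (unitBall K))),
        GoodModel (unitBall K) f (π ≫ toSpec K c₁)) ∧
    (∀ (C' : Scheme.{u}) (π : C' ⟶ curve K c₂), Covering π →
      ∀ (X : Scheme.{u}) (f : X ⟶ Spec (.of (unitBall K))),
        ¬ GoodModel (unitBall K) f (π ≫ toSpec K c₂)) := by
  have hO : RankOne (unitBall K) := rankOne_unitBall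
  have h2K : (2 : K) ≠ 0 := by
    intro h
    have h' := (CharP.cast_eq_zero_iff K p 2).mp (by exact_mod_cast h)
    exact hp ((Nat.prime_dvd_prime_iff_eq (Fact.out : p.Prime) Nat.prime_two).mp h')
  obtain ⟨F, _, _, _, _, _, hF⟩ := algebraic_closure_facts (K := K) p
  obtain ⟨a, rfl⟩ := hF c₁ hc₁
  have h2F : (2 : F) ≠ 0 := by
    intro h
    apply h2K
    rw [← map_ofNat (algebraMap F K) 2, h, map_zero]
  have h2O : IsUnit (2 : unitBall K) := by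
    have h := (isUnit_iff_ne_zero.mpr h2F).map (algebraMap F (unitBall K))
    rwa [map_ofNat] at h
  have ha0 : a ≠ 0 := by
    rintro rfl
    exact hc₁0 (map_zero _)
  have ha1 : a ≠ 1 := by
    rintro rfl
    exact hc₁1 (map_one _)
  have hc₂O : c₂ ∈ (unitBall K).nonunits := (mem_unitBall_nonunits c₂).mpr hc₂
  have hc₂1 : c₂ ≠ 1 := by
    rintro rfl
    simp at hc₂
  refine ⟨?_, ?_, ?_, ?_⟩
  · exact ⟨curve_isProper _ _, curve_smooth _ _ (isUnit_iff_ne_zero.mpr h2K)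
        (isUnit_iff_ne_zero.mpr hc₁0) (isUnit_iff_ne_zero.mpr (sub_ne_zero.mpr hc₁1.symm)),
        curve_isIntegral _ _ hc₁0⟩
  · exact ⟨curve_isProper _ _, curve_smooth _ _ (isUnit_iff_ne_zero.mpr h2K)
        (isUnit_iff_ne_zero.mpr hc₂0) (isUnit_iff_ne_zero.mpr (sub_ne_zero.mpr hc₂1.symm)),
        curve_isIntegral _ _ hc₂0⟩
  · intro C₁ π₁ h
    have := h.isFinite
    have := h.etale
    have := h.isIntegral
    obtain ⟨X₁, f₁, hp₁, hs₁, hg₁, hk₁⟩ := exists_smooth_model' (unitBall K) hO h2F a ha0 ha1 π₁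
    exact ⟨X₁, f₁, hp₁, hs₁, hg₁, hk₁⟩
  · intro C₂ π₂ h X₂ f₂ h₂
    have := h.isFinite
    have := h.etale
    have := h.isIntegral
    have := h₂.isProper
    have := h₂.smooth
    obtain ⟨x, y, hxy, hx, hxL⟩ := curve_functions K c₂ hc₂0 π₂
    let _ := (toFunctionField (π₂ ≫ toSpec K c₂)).toAlgebra
    obtain ⟨v, w, hv, hw, hvn, hwn, hne⟩ :=
      exists_nonrational_pair' (unitBall K) x y hx c₂ hc₂0 hc₂O hxy
    exact hne (nonrational_unique' (unitBall K) hO h2O f₂ _ h₂.generic h₂.special ⟨x, hx, hxL⟩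
      v w hv hw hvn hwn)

end Pool.Agent.Lib.MP_211349_ag
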