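import Pool.Agent.Lib.MP_211349_ag.Defs

/-!
# Coverings and models
-/

open CategoryTheory Limits AlgebraicGeometry

universe u

noncomputable section

namespace Pool.Agent.Lib.MP_211349_ag

/-- `f : C → Spec R` is proper and smooth and `C` is integral. -/
structure SmoothProper {R : Type u} [CommRing R] {C : Scheme.{u}} (f : C ⟶ Spec (.of R)) :
    Prop where
  isProper : IsProper f
  smooth : Smooth f
  isIntegral : IsIntegral C

/-- `π : C' → C` is a finite étale covering and `C'` is integral. -/
structure Covering {C' C : Scheme.{u}} (π : C' ⟶ C) : Prop where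
  isFinite : IsFinite π
  etale : Etale π
  isIntegral : IsIntegral C'

section models

variable {K : Type u} [Field K] (O : ValuationSubring K)

/-- `f : X → Spec O` is a smooth proper model with integral special fibre of `g : C → Spec K`. -/
structure GoodModel {X C : Scheme.{u}} (f : X ⟶ Spec (.of O)) (g : C ⟶ Spec (.of K)) : Prop where
  isProper : IsProper f
  smooth : Smooth f
  generic : HasGenericFibre O f g
  special : IsIntegral (specialFibre O f)

/-- `f : X → Spec O` is a proper, flat and finitely presented model of `g : C → Spec K` with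
connected special fibre. -/
structure FlatModel {X C : Scheme.{u}} (f : X ⟶ Spec (.of O)) (g : C ⟶ Spec (.of K)) : Prop where
  isProper : IsProper f
  flat : Flat f
  locallyOfFinitePresentation : LocallyOfFinitePresentation f
  generic : HasGenericFibre O f g
  special : ConnectedSpace (specialFibre O f)

end models

/-- `g₁ : C₁ → Spec K` and `g₂ : C₂ → Spec K` are integral, smooth and proper, every finite étale
covering of `C₁` has a smooth proper model over `O` with integral special fibre, no finite étale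
covering of `C₂` has one, and such models of coverings of `C₁` and proper, flat and finitely
presented models with connected special fibres of coverings of `C₂` (nonempty disjoint unions are
allowed) are never isomorphic modulo `ϖ`. -/
structure NeverClose {K : Type u} [Field K] (O : ValuationSubring K) {C₁ C₂ : Scheme.{u}}
    (g₁ : C₁ ⟶ Spec (.of K)) (g₂ : C₂ ⟶ Spec (.of K)) : Prop where
  smoothProper₁ : SmoothProper g₁
  smoothProper₂ : SmoothProper g₂
  good : ∀ (C' : Scheme.{u}) (π : C' ⟶ C₁), Covering π →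
    ∃ (X : Scheme.{u}) (f : X ⟶ Spec (.of O)), GoodModel O f (π ≫ g₁)
  bad : ∀ (C' : Scheme.{u}) (π : C' ⟶ C₂), Covering π →
    ∀ (X : Scheme.{u}) (f : X ⟶ Spec (.of O)), ¬ GoodModel O f (π ≫ g₂)
  notIso : ∀ (ι₁ ι₂ : Type u) (D₁ : ι₁ → Scheme.{u}) (D₂ : ι₂ → Scheme.{u})
    (π₁ : ∀ i, D₁ i ⟶ C₁) (π₂ : ∀ j, D₂ j ⟶ C₂) (X₁ : ι₁ → Scheme.{u}) (X₂ : ι₂ → Scheme.{u})
    (f₁ : ∀ i, X₁ i ⟶ Spec (.of O)) (f₂ : ∀ j, X₂ j ⟶ Spec (.of O)), Nonempty ι₁ →
    (∀ i, Covering (π₁ i)) → (∀ j, Covering (π₂ j)) →
    (∀ i, GoodModel O (f₁ i) (π₁ i ≫ g₁)) → (∀ j, FlatModel O (f₂ j) (π₂ j ≫ g₂)) →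
    ∀ ϖ : O, ϖ ≠ 0 → ¬ IsUnit ϖ →
      ¬ IsoMod O (Ideal.span {ϖ}) (Sigma.desc f₁) (Sigma.desc f₂)

/-- The unit ball of an ultrametric field. -/
abbrev unitBall (K : Type u) [NontriviallyNormedField K] [IsUltrametricDist K] : ValuationSubring K :=
  (NormedField.valuation (K := K)).valuationSubring

end Pool.Agent.Lib.MP_211349_ag
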